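import Pool.Agent.Y184.NT.StB
import Pool.Agent.Y172.Cov3

/-!
The order of the different: proof of `StTame`.
-/

set_option autoImplicit false
set_option linter.overlappingInstances false
set_option linter.unusedSectionVars false

open FF Polynomial Pool.Agent.W602.GT Pool.Agent.W603.LV Pool.Agent.W619.PQ Pool.Agent.Y172

namespace Pool.Agent.Y48.NT

/-- the block matrix -/
theorem det_block {R : Type} [CommRing R] {N : ℕ} (B : Matrix (Fin N) (Fin N) R)
    (r : Fin (N + 1) → R) (M : Fin N → Fin (N + 1) → R) :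
    (Matrix.of (Fin.cons r fun i j => ∑ k, B i k * M k j : Fin (N + 1) → Fin (N + 1) → R)).det =
      B.det * (Matrix.of (Fin.cons r M : Fin (N + 1) → Fin (N + 1) → R)).det := by
  have h1 : (Matrix.of (Fin.cons (Fin.cons 1 fun _ => 0) fun i => Fin.cons 0 (B i) :
      Fin (N + 1) → Fin (N + 1) → R)).det = B.det := by
    rw [Matrix.det_succ_row_zero, Finset.sum_eq_single 0]
    · have : (Matrix.of (Fin.cons (Fin.cons 1 fun _ => 0) fun i => Fin.cons 0 (B i) :
          Fin (N + 1) → Fin (N + 1) → R)).submatrix Fin.succ (Fin.succAbove 0) = B := by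
        ext i j
        simp
      rw [this]
      simp
    · intro j _ hj
      obtain ⟨j', rfl⟩ := Fin.exists_succ_eq.2 hj
      simp
    · intro h
      exact absurd (Finset.mem_univ _) h
  rw [← h1, ← Matrix.det_mul]
  congr 1
  ext i j
  rw [Matrix.mul_apply, Fin.sum_univ_succ]
  refine Fin.cases ?_ (fun i => ?_) i
  · simp
  · simp

theorem tame : Pool.Agent.Y184.NT.StTame := by
  classical
  intro E0 R _ _ _ _ _ _ _ _ _ N hN t ht δ hδ v w w0 e hv hwv hw0v htw hδ0 u J hJ hJ0
  have hNR : Algebra.trdeg ℂ R = N := trdeg_up (K := E0) hN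
  obtain ⟨y, E, i0, hl⟩ := exists_loc hN hv
  choose E' hE' using fun i => exists_lift (L := R) hN (E i)
  have hdual := lift_dual (L := R) hl.dual hE'
  obtain ⟨B, hB⟩ : ∃ B : Matrix (Fin N) (Fin N) R, B = Matrix.of fun i k => E' i (t k) := ⟨_, rfl⟩
  obtain ⟨C, hC⟩ : ∃ C : Matrix (Fin N) (Fin N) R,
    C = Matrix.of fun k i => δ k (algebraMap E0 R (y i)) := ⟨_, rfl⟩
  have hexp : ∀ i (f : R), E' i f = ∑ k, B i k * δ k f := by
    intro i f
    have h1 := Pool.Agent.W73.PG.PULL.expand t ht δ hδ (E' i)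
    conv_lhs => rw [← h1]
    rw [Pool.Agent.W73.PG.PULL.sum_app, hB]
    rfl
  -- (1)
  have h1 : B.det = 0 ∨ (0 : ℝ) + (1 : ℕ) - e * (1 : ℕ) ≤ w.ord B.det := by
    have h2 := down_ge (E' := E') hNR hwv (divisorial_up hwv hv) hl hE' (m := 1)
      (W := fun G : Fin N → Derivation ℂ R R => (Matrix.of fun i k => G i (t k)).det) (c := 0)
      (by
        intro A D
        have e1 : (Matrix.of fun a b => (∑ j, A a j • D j) (t b)) =
            A * Matrix.of fun a b => D a (t b) := by
          ext a b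
          rw [Matrix.of_apply, Matrix.mul_apply, Pool.Agent.W73.PG.PULL.sum_app]
          rfl
        change (Matrix.of fun a b => (∑ j, A a j • D j) (t b)).det = _
        rw [e1, Matrix.det_mul, pow_one])
      (by
        intro G hG
        have h3 : Ge w 0 (Matrix.of fun i k => G i (t k) : Matrix (Fin N) (Fin N) R).det :=
          ge_det w _ _ (fun _ _ => 0) (fun a b => hG a _ (htw b)) fun σ => by simp
        rcases h3 with h3 | h3
        · exact Or.inl h3
        · right
          exact_mod_cast h3)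
    rw [hB]
    exact h2
  -- (2)
  have hBC : B * C = 1 := by
    ext i j
    rw [Matrix.mul_apply, Matrix.one_apply, ← hdual i j, hexp i, hC]
    rfl
  have hdet : B.det * C.det = 1 := by
    rw [← Matrix.det_mul, hBC, Matrix.det_one]
  have hB0 : B.det ≠ 0 := left_ne_zero_of_mul (by rw [hdet]; exact one_ne_zero)
  have hC0 : C.det ≠ 0 := right_ne_zero_of_mul (by rw [hdet]; exact one_ne_zero)
  have hCreg : 0 ≤ w0.ord C.det := by
    have h3 : Ge w0 0 C.det := by
      rw [hC]
      exact ge_det w0 _ _ (fun _ _ => 0) (fun a b => hδ0 a _ (hw0v.reg.2 (hl.reg b))) fun σ => by simp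
    exact h3.resolve_left hC0
  have hBreg : w0.ord B.det ≤ 0 := by
    have h4 := w0.ord_mul hB0 hC0
    rw [hdet, w0.ord_one] at h4
    omega
  -- (3)
  obtain ⟨φ, hφ⟩ : ∃ φ : E0, φ = (Matrix.of (Fin.cons u fun i j => E i (u j) :
    Fin (N + 1) → Fin (N + 1) → E0)).det := ⟨_, rfl⟩
  have hφR : algebraMap E0 R φ = B.det * J := by
    rw [hJ, ← det_block, hφ, RingHom.map_det]
    congr 1
    ext i j
    rw [RingHom.mapMatrix_apply, Matrix.map_apply, Matrix.of_apply, Matrix.of_apply]
    refine Fin.cases ?_ (fun i => ?_) i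
    · simp
    · simp only [Fin.cons_succ]
      rw [← hE', hexp]
  have hφ0 : algebraMap E0 R φ ≠ 0 := by
    rw [hφR]
    exact mul_ne_zero hB0 hJ0
  have h5 : (e : ℤ) * v.ord φ = w.ord B.det + w.ord J := by
    rw [← hwv.2, hφR, w.ord_mul hB0 hJ0]
  have h6 : v.ord φ = w0.ord B.det + w0.ord J := by
    have h7 := hw0v.2 φ
    rw [hφR, w0.ord_mul hB0 hJ0] at h7
    push_cast at h7
    linarith
  have h8 : 1 - (e : ℤ) ≤ w.ord B.det := by
    have h9 := h1.resolve_left hB0
    push_cast at h9
    have h10 : (1 : ℝ) - e ≤ w.ord B.det := by linarith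
    exact_mod_cast h10
  have he : (0 : ℤ) < e := by exact_mod_cast hwv.1
  have h11 : (e : ℤ) * v.ord φ ≤ e * w0.ord J := mul_le_mul_of_nonneg_left (by omega) he.le
  linarith

end Pool.Agent.Y48.NT
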